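import Pool.Agent.Helper98.CP.BDefs

/-!
# OA-9: every irreducible step of the flag is a `Stage`
-/

set_option autoImplicit false

namespace Pool.Agent.CP

open Stage Finset

variable {G V : Type*} [Group G] [AddCommGroup V] [Module ℚ V]

namespace Base

private lemma oa9_mul_apply (B : Base G V) (a b : G) (v : V) :
    B.ρ (a * b) v = B.ρ a (B.ρ b v) := by
  rw [map_mul]; rfl

private lemma oa9_anti (B : Base G V) : Antitone B.W := antitone_nat_of_succ_le B.anti

private lemma oa9_powW (B : Base G V) {l : V →ₗ[ℚ] V} (hl : l ∈ B.L) (v : V) :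
    ∀ k, (l ^ k) v ∈ B.W k
  | 0 => by rw [B.W0]; trivial
  | k + 1 => by
    rw [pow_succ']
    exact B.LW l hl k _ (oa9_powW B hl v k)

private lemma oa9_pow_zero (B : Base G V) {l : V →ₗ[ℚ] V} (hl : l ∈ B.L) {k : ℕ} (hk : B.c ≤ k) :
    l ^ k = 0 := by
  ext v
  have h := oa9_anti B hk (oa9_powW B hl v k)
  rw [B.Wc] at h
  simpa using h

/-- the remainder of the exponential -/
private noncomputable def oa9_R (c : ℕ) (l : V →ₗ[ℚ] V) (x : V) : V :=
  ∑ k ∈ range c, (((k + 2).factorial : ℚ)⁻¹) • (l ^ (k + 2)) x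

private lemma oa9_EE (B : Base G V) {l : V →ₗ[ℚ] V} (hl : l ∈ B.L) (x : V) :
    EE B.c l x = x + l x + oa9_R B.c l x := by
  have h1 : EE B.c l = EE (B.c + 2) l := by
    unfold EE
    rw [Finset.sum_range_succ, Finset.sum_range_succ, oa9_pow_zero B hl (le_refl _),
      oa9_pow_zero B hl (Nat.le_succ _)]
    simp
  rw [h1]
  unfold EE oa9_R
  rw [Finset.sum_range_succ', Finset.sum_range_succ']
  simp only [LinearMap.add_apply, LinearMap.sum_apply, LinearMap.smul_apply]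
  simp
  abel

private lemma oa9_LU {B : Base G V} {U U' : Submodule ℚ V} (h : B.IsStep U U')
    {l : V →ₗ[ℚ] V} (hl : l ∈ B.L) {v : V} (hv : v ∈ U) : l v ∈ U' := by
  obtain ⟨i, h1, h2⟩ := h.idx
  exact h2 (B.LW l hl i v (h1 hv))

private lemma oa9_powU {B : Base G V} {U U' : Submodule ℚ V} (h : B.IsStep U U')
    {l : V →ₗ[ℚ] V} (hl : l ∈ B.L) {v : V} (hv : v ∈ U) : ∀ k, (l ^ (k + 1)) v ∈ U'
  | 0 => by
    rw [zero_add, pow_one]
    exact oa9_LU h hl hv
  | k + 1 => by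
    rw [pow_succ']
    exact oa9_LU h hl (h.le (oa9_powU h hl hv k))

private lemma oa9_RU {B : Base G V} {U U' : Submodule ℚ V} (h : B.IsStep U U')
    {l : V →ₗ[ℚ] V} (hl : l ∈ B.L) {x : V} (hx : l x ∈ U) : oa9_R B.c l x ∈ U' := by
  unfold oa9_R
  apply Submodule.sum_mem
  intro k _
  apply Submodule.smul_mem
  have h1 : (l ^ (k + 2)) x = (l ^ (k + 1)) (l x) := by
    rw [pow_succ l (k + 1)]; rfl
  rw [h1]
  exact oa9_powU h hl hx k

/-- `N` acts trivially on `U/U'` -/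
theorem N_triv {B : Base G V} {U U' : Submodule ℚ V} (h : B.IsStep U U') :
    ∀ ν ∈ B.N, ∀ v ∈ U, B.ρ ν v - v ∈ U' := by
  intro ν hν v hv
  obtain ⟨l, hl, h1⟩ := (B.expN ν).mp hν
  rw [h1, oa9_EE B hl]
  have h2 := oa9_LU h hl hv
  have h3 := oa9_RU h hl (h.le h2)
  have := U'.add_mem h2 h3
  have e : v + l v + oa9_R B.c l v - v = l v + oa9_R B.c l v := by abel
  rwa [e]

private lemma oa9_comm {B : Base G V} {U U' : Submodule ℚ V} (h : B.IsStep U U')
    (X : V →ₗ[ℚ] V) (hX : X ∈ Submodule.span ℚ (Set.range B.ρ)) (g : G) {v : V} (hv : v ∈ U) :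
    X (B.ρ g v) - B.ρ g (X v) ∈ U' := by
  induction hX using Submodule.span_induction with
  | mem x hx =>
    obtain ⟨a, rfl⟩ := hx
    have h1 := N_triv h _ (B.comm a g) (B.ρ (g * a) v) (h.invU _ _ hv)
    rw [← oa9_mul_apply] at h1
    rw [← oa9_mul_apply, ← oa9_mul_apply]
    have e : a * g * a⁻¹ * g⁻¹ * (g * a) = a * g := by group
    rwa [e] at h1
  | zero => simp
  | add x y _ _ hx hy =>
    have := U'.add_mem hx hy
    have e : (x + y) (B.ρ g v) - B.ρ g ((x + y) v) =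
        x (B.ρ g v) - B.ρ g (x v) + (y (B.ρ g v) - B.ρ g (y v)) := by
      simp only [LinearMap.add_apply, map_add]; abel
    rwa [e]
  | smul a x _ hx =>
    have := U'.smul_mem a hx
    have e : (a • x) (B.ρ g v) - B.ρ g ((a • x) v) = a • (x (B.ρ g v) - B.ρ g (x v)) := by
      simp only [LinearMap.smul_apply, map_smul, smul_sub]
    rwa [e]

private lemma oa9_span_inv {B : Base G V} {Y : Submodule ℚ V}
    (hY : ∀ g : G, ∀ v ∈ Y, B.ρ g v ∈ Y) (X : V →ₗ[ℚ] V)
    (hX : X ∈ Submodule.span ℚ (Set.range B.ρ)) {v : V} (hv : v ∈ Y) : X v ∈ Y := by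
  induction hX using Submodule.span_induction with
  | mem x hx =>
    obtain ⟨a, rfl⟩ := hx
    exact hY a v hv
  | zero => simp
  | add x y _ _ hx hy => exact Y.add_mem hx hy
  | smul a x _ hx => exact Y.smul_mem a hx

theorem schur {B : Base G V} {U U' : Submodule ℚ V} (h : B.IsStep U U') :
    ∀ X ∈ Submodule.span ℚ (Set.range B.ρ),
      (∀ v ∈ U, X v ∈ U') ∨ (∀ v ∈ U, X v ∈ U' → v ∈ U') := by
  intro X hX
  let Y : Submodule ℚ V := U ⊓ U'.comap X
  have hmem : ∀ v, v ∈ Y ↔ v ∈ U ∧ X v ∈ U' := fun v => Iff.rfl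
  have hinv : ∀ g : G, ∀ v ∈ Y, B.ρ g v ∈ Y := by
    intro g v hv
    rw [hmem] at hv ⊢
    refine ⟨h.invU g v hv.1, ?_⟩
    have h1 := oa9_comm h X hX g hv.1
    have h2 := h.invU' g _ hv.2
    have := U'.add_mem h1 h2
    rwa [sub_add_cancel] at this
  have hle : U' ≤ Y := by
    intro v hv
    rw [hmem]
    exact ⟨h.le hv, oa9_span_inv h.invU' X hX hv⟩
  rcases h.irr Y hinv hle inf_le_left with h1 | h1
  · right
    intro v hv hXv
    rw [← h1]
    exact ⟨hv, hXv⟩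
  · left
    intro v hv
    rw [← h1] at hv
    exact hv.2

private lemma oa9_powWj (B : Base G V) {l : V →ₗ[ℚ] V} (hl : l ∈ B.L) {j : ℕ} {w : V}
    (hw : w ∈ B.W j) : ∀ k, (l ^ (k + 1)) w ∈ B.W (j + 1)
  | 0 => by
    rw [zero_add, pow_one]
    exact B.LW l hl j w hw
  | k + 1 => by
    rw [pow_succ']
    exact B.anti _ (B.LW l hl _ _ (oa9_powWj B hl hw k))

theorem exp1 {B : Base G V} {U U' : Submodule ℚ V} (h : B.IsStep U U') :
    ∀ ν ∈ B.N, ∃ l ∈ B.L, ∀ x : V,
      (B.ρ ν x - x ∈ U → l x ∈ U) ∧ (l x ∈ U → B.ρ ν x - x - l x ∈ U') := by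
  intro ν hν
  obtain ⟨l, hl, h1⟩ := (B.expN ν).mp hν
  refine ⟨l, hl, fun x => ⟨?_, ?_⟩⟩
  · intro hx
    rw [h1, oa9_EE B hl] at hx
    have hx' : l x + oa9_R B.c l x ∈ U := by
      have e : x + l x + oa9_R B.c l x - x = l x + oa9_R B.c l x := by abel
      rwa [e] at hx
    have key : ∀ j, l x ∈ B.W j ⊔ U := by
      intro j
      induction j with
      | zero => rw [B.W0, top_sup_eq]; trivial
      | succ j ih =>
        obtain ⟨w, hw, u, hu, hwu⟩ := Submodule.mem_sup.mp ih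
        have h2 : oa9_R B.c l x ∈ B.W (j + 1) ⊔ U := by
          unfold oa9_R
          apply Submodule.sum_mem
          intro k _
          apply Submodule.smul_mem
          have h3 : (l ^ (k + 2)) x = (l ^ (k + 1)) w + (l ^ (k + 1)) u := by
            rw [← map_add, hwu, pow_succ l (k + 1)]; rfl
          rw [h3]
          exact Submodule.add_mem_sup (oa9_powWj B hl hw k) (h.le (oa9_powU h hl hu k))
        have h4 : l x = (l x + oa9_R B.c l x) - oa9_R B.c l x := by abel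
        rw [h4]
        exact Submodule.sub_mem _ (Submodule.mem_sup_right hx') h2
    have := key B.c
    rwa [B.Wc, bot_sup_eq] at this
  · intro hx
    rw [h1, oa9_EE B hl]
    have := oa9_RU h hl hx
    have e : x + l x + oa9_R B.c l x - x - l x = oa9_R B.c l x := by abel
    rwa [e]

theorem exp2 {B : Base G V} {U U' : Submodule ℚ V} (h : B.IsStep U U') :
    ∀ l ∈ B.L, ∃ ν ∈ B.N, ∀ x : V, l x ∈ U → B.ρ ν x - x - l x ∈ U' := by
  intro l hl
  obtain ⟨ν, hν, h1⟩ := B.Nexp l hl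
  refine ⟨ν, hν, fun x hx => ?_⟩
  rw [h1, oa9_EE B hl]
  have := oa9_RU h hl hx
  have e : x + l x + oa9_R B.c l x - x - l x = oa9_R B.c l x := by abel
  rwa [e]

/-- the subgroup acting trivially on `U/U'` -/
private def oa9_H {B : Base G V} {U U' : Submodule ℚ V} (h : B.IsStep U U') : Subgroup G where
  carrier := {a | ∀ v ∈ U, B.ρ a v - v ∈ U'}
  one_mem' := by intro v _; simp
  mul_mem' := by
    intro a b ha hb v hv
    have h1 := h.invU' a _ (hb v hv)
    have h2 := ha v hv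
    have := U'.add_mem h1 h2
    simpa [oa9_mul_apply, map_sub] using this
  inv_mem' := by
    intro a ha v hv
    have h0 : B.ρ a⁻¹ (B.ρ a v) = v := by rw [← oa9_mul_apply]; simp
    have h1 := h.invU' a⁻¹ _ (ha v hv)
    rw [map_sub, h0] at h1
    have := U'.neg_mem h1
    simpa using this

theorem exists_stage_of (hk : ∀ H : Subgroup G, (∀ a b : G, a * b * a⁻¹ * b⁻¹ ∈ H) →
      ∃ (q : ℕ) (κ : G → (Fin q → ℚ)), (∀ a b, κ (a * b) = κ a + κ b) ∧
        ∀ a, κ a = 0 ↔ ∃ m : ℕ, 0 < m ∧ a ^ m ∈ H)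
    {B : Base G V} {U U' : Submodule ℚ V} (h : B.IsStep U U') :
    ∃ S : Stage G V, S.ρ = B.ρ ∧ S.N = B.N ∧ S.L = B.L ∧ S.U = U ∧ S.U' = U' := by
  obtain ⟨q, κ, h1, h2⟩ := hk (oa9_H h) (fun a b => N_triv h _ (B.comm a b))
  refine ⟨{ ρ := B.ρ, N := B.N, L := B.L, U := U, U' := U', U'_le := h.le, invU := h.invU,
            invU' := h.invU', comm := B.comm, Linv := B.Linv, LU := fun l hl v hv => oa9_LU h hl hv,
            exp1 := exp1 h, exp2 := exp2 h, schur := schur h, q := q, κ := κ, κ_mul := h1,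
            κ_zero := h2 }, rfl, rfl, rfl, rfl, rfl⟩

end Base

end Pool.Agent.CP
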